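import Mathlib

/-!
# A counting lemma for groups of odd order
-/

open Subgroup

namespace GPerm

/-- A finite group of odd order is commutative, if commuting is transitive on the nontrivial
elements and no element maps a nontrivial `b` to another element commuting with `b`. -/
theorem comm_of_odd {B : Type*} [Group B] [Finite B] (hodd : Odd (Nat.card B))
    (h1 : ∀ x y z : B, x ≠ 1 → x * y = y * x → x * z = z * x → y * z = z * y)
    (h2 : ∀ g b : B, b ≠ 1 → (g * b * g⁻¹) * b = b * (g * b * g⁻¹) → g * b = b * g)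
    (x y : B) : x * y = y * x := by
  classical
  have : Fintype B := Fintype.ofFinite B
  by_cases hB : ∀ b : B, b = 1
  · rw [hB x, hB y]
  push Not at hB
  obtain ⟨b₀, hb₀⟩ := hB
  -- the centralizer as a finset and its nontrivial elements
  let T : B → Finset B := fun b => Finset.univ.filter fun t => t * b = b * t
  let T' : B → Finset B := fun b => (T b).erase 1
  let P : B → Finset (B × B) := fun b => Finset.univ ×ˢ T' b
  let φ : B × B → B := fun z => z.1 * z.2 * z.1⁻¹
  let S : B → Finset B := fun b => (P b).image φ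
  have hTmem : ∀ b t, t ∈ T b ↔ t * b = b * t := by intro b t; simp [T]
  have hT'mem : ∀ b t, t ∈ T' b ↔ t ≠ 1 ∧ t * b = b * t := by intro b t; simp [T', T]
  have hT'card : ∀ b, (T' b).card = (T b).card - 1 := by
    intro b
    exact Finset.card_erase_of_mem (by simp [T])
  -- members of `T b` commute
  have hTcomm : ∀ b, b ≠ 1 → ∀ s ∈ T b, ∀ t ∈ T b, s * t = t * s := by
    intro b hb s hs t ht
    exact h1 b s t hb ((hTmem b s).1 hs).symm ((hTmem b t).1 ht).symm
  -- odd order of the centralizer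
  have hTodd : ∀ b, b ≠ 1 → 3 ≤ (T b).card := by
    intro b hb
    have h3 : (T b).card = Nat.card (centralizer ({b} : Set B)) := by
      rw [Nat.card_eq_fintype_card, Fintype.card_subtype]
      congr 1
      ext t
      rw [hTmem, Finset.mem_filter]
      simp [mem_centralizer_singleton_iff]
    have h4 : Odd (T b).card := by
      rw [h3]
      exact hodd.of_dvd_nat (card_subgroup_dvd_card _)
    have h5 : 1 < (T b).card := by
      rw [Finset.one_lt_card]
      exact ⟨1, by simp [T], b, by simp [T], hb.symm⟩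
    obtain ⟨k, hk⟩ := h4
    omega
  -- fibres
  have hfib : ∀ b, b ≠ 1 → ∀ g t h s, t ∈ T' b → s ∈ T' b → g * t * g⁻¹ = h * s * h⁻¹ →
      g⁻¹ * h ∈ T b := by
    intro b hb g t h s ht hs he
    obtain ⟨ht1, htb⟩ := (hT'mem b t).1 ht
    obtain ⟨hs1, hsb⟩ := (hT'mem b s).1 hs
    -- k = g⁻¹ h satisfies k s k⁻¹ = t
    have hk : (g⁻¹ * h) * s * (g⁻¹ * h)⁻¹ = t := by
      calc (g⁻¹ * h) * s * (g⁻¹ * h)⁻¹ = g⁻¹ * (h * s * h⁻¹) * g := by group
        _ = g⁻¹ * (g * t * g⁻¹) * g := by rw [he]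
        _ = t := by group
    have hst : s * t = t * s := hTcomm b hb s ((hTmem b s).2 hsb) t ((hTmem b t).2 htb)
    have h3 := h2 (g⁻¹ * h) s hs1 (by rw [hk]; exact hst.symm)
    rw [hTmem]
    exact h1 s (g⁻¹ * h) b hs1 h3.symm hsb
  have hlow : ∀ b, b ≠ 1 → 2 * Fintype.card B ≤ 3 * (S b).card := by
    intro b hb
    have h3 := Finset.card_le_mul_card_image (f := φ) (P b) (T b).card (by
      intro a ha
      obtain ⟨⟨g, t⟩, hgt, rfl⟩ := Finset.mem_image.1 ha
      have ht : t ∈ T' b := (Finset.mem_product.1 hgt).2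
      refine Finset.card_le_card_of_injOn (fun z => g⁻¹ * z.1) ?_ ?_
      · rintro ⟨h, s⟩ hz
        simp only [Finset.coe_filter, Set.mem_ofPred_eq] at hz
        have hs : s ∈ T' b := (Finset.mem_product.1 hz.1).2
        exact hfib b hb g t h s ht hs hz.2.symm
      · rintro ⟨h, s⟩ hz ⟨h', s'⟩ hz' he
        simp only [Finset.coe_filter, Set.mem_ofPred_eq] at hz hz'
        have he1 : h = h' := mul_left_cancel he
        subst he1
        have he2 : h * s * h⁻¹ = h * s' * h⁻¹ := hz.2.trans hz'.2.symm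
        have he3 : s = s' := mul_left_cancel (mul_right_cancel he2)
        rw [he3])
    have h4 : (P b).card = Fintype.card B * ((T b).card - 1) := by
      rw [Finset.card_product, Finset.card_univ, hT'card]
    rw [h4] at h3
    have h5 := hTodd b hb
    obtain ⟨m, hm⟩ : ∃ m, (T b).card = m + 3 := ⟨(T b).card - 3, by omega⟩
    rw [hm] at h3
    have h6 : Fintype.card B * (m + 2) ≤ (m + 3) * (S b).card := h3
    by_contra hcon
    push Not at hcon
    nlinarith
  have hSmem : ∀ b x, x ∈ S b → x ≠ 1 ∧ ∃ g, x * (g * b * g⁻¹) = (g * b * g⁻¹) * x := by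
    intro b x hx
    obtain ⟨⟨g, t⟩, hgt, rfl⟩ := Finset.mem_image.1 hx
    obtain ⟨ht1, htb⟩ := (hT'mem b t).1 (Finset.mem_product.1 hgt).2
    constructor
    · intro h
      apply ht1
      have : g * t * g⁻¹ = 1 := h
      rw [mul_inv_eq_one] at this
      exact mul_eq_left.1 this
    · refine ⟨g, ?_⟩
      change g * t * g⁻¹ * (g * b * g⁻¹) = g * b * g⁻¹ * (g * t * g⁻¹)
      calc g * t * g⁻¹ * (g * b * g⁻¹) = g * (t * b) * g⁻¹ := by group
        _ = g * (b * t) * g⁻¹ := by rw [htb]
        _ = g * b * g⁻¹ * (g * t * g⁻¹) := by group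
  have hmemS : ∀ b x, x ≠ 1 → (∃ g, x * (g * b * g⁻¹) = (g * b * g⁻¹) * x) → x ∈ S b := by
    rintro b x hx ⟨g, hg⟩
    refine Finset.mem_image.2 ⟨(g, g⁻¹ * x * g), Finset.mem_product.2 ⟨Finset.mem_univ _, ?_⟩, ?_⟩
    · rw [hT'mem]
      constructor
      · intro h
        replace h : g⁻¹ * x * g = 1 := h
        apply hx
        have : x = g * (g⁻¹ * x * g) * g⁻¹ := by group
        rw [this, h]; group
      · calc g⁻¹ * x * g * b = g⁻¹ * (x * (g * b * g⁻¹)) * g := by group
          _ = g⁻¹ * ((g * b * g⁻¹) * x) * g := by rw [hg]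
          _ = b * (g⁻¹ * x * g) := by group
    · change g * (g⁻¹ * x * g) * g⁻¹ = x
      group
  -- all nontrivial elements are in `S b₀`
  have hall : ∀ x : B, x ≠ 1 → x ∈ S b₀ := by
    intro b' hb'
    by_contra hcon
    have hdisj : Disjoint (S b₀) (S b') := by
      rw [Finset.disjoint_left]
      intro x hx hx'
      obtain ⟨hx1, g, hg⟩ := hSmem b₀ x hx
      obtain ⟨-, h, hh⟩ := hSmem b' x hx'
      apply hcon
      apply hmemS b₀ b' hb'
      have h3 := h1 x _ _ hx1 hg hh
      refine ⟨h⁻¹ * g, ?_⟩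
      calc b' * (h⁻¹ * g * b₀ * (h⁻¹ * g)⁻¹) = h⁻¹ * ((h * b' * h⁻¹) * (g * b₀ * g⁻¹)) * h := by
            group
        _ = h⁻¹ * ((g * b₀ * g⁻¹) * (h * b' * h⁻¹)) * h := by rw [h3]
        _ = h⁻¹ * g * b₀ * (h⁻¹ * g)⁻¹ * b' := by group
    have h3 := hlow b₀ hb₀
    have h4 := hlow b' hb'
    have h5 : (S b₀).card + (S b').card ≤ Fintype.card B := by
      rw [← Finset.card_union_of_disjoint hdisj]
      exact Finset.card_le_univ _
    have h6 : 0 < Fintype.card B := Fintype.card_pos
    omega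
  have hcardS : Fintype.card B - 1 ≤ (S b₀).card := by
    have : (Finset.univ.erase (1 : B)) ⊆ S b₀ := by
      intro x hx
      exact hall x (Finset.ne_of_mem_erase hx)
    calc Fintype.card B - 1 = (Finset.univ.erase (1 : B)).card := by
          rw [Finset.card_erase_of_mem (Finset.mem_univ _), Finset.card_univ]
      _ ≤ _ := Finset.card_le_card this
  have hup := Finset.mul_card_image_le_card (f := φ) (s := P b₀) (n := (T b₀).card) (by
    intro a ha
    obtain ⟨⟨g, t⟩, hgt, rfl⟩ := Finset.mem_image.1 ha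
    have ht : t ∈ T' b₀ := (Finset.mem_product.1 hgt).2
    refine Finset.card_le_card_of_injOn (fun k => (g * k, t)) ?_ ?_
    · intro k hk
      simp only [Finset.coe_filter, Set.mem_ofPred_eq]
      refine ⟨Finset.mem_product.2 ⟨Finset.mem_univ _, ht⟩, ?_⟩
      have hkt : k * t = t * k := hTcomm b₀ hb₀ k hk t ((hTmem b₀ t).2 ((hT'mem b₀ t).1 ht).2)
      change g * k * t * (g * k)⁻¹ = g * t * g⁻¹
      calc g * k * t * (g * k)⁻¹ = g * (k * t) * k⁻¹ * g⁻¹ := by group
        _ = g * t * g⁻¹ := by rw [hkt]; group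
    · intro k _ k' _ he
      exact mul_left_cancel (congrArg Prod.fst he))
  have h4 : (P b₀).card = Fintype.card B * ((T b₀).card - 1) := by
    rw [Finset.card_product, Finset.card_univ, hT'card]
  rw [h4] at hup
  have h5 := hTodd b₀ hb₀
  have h6 : (T b₀).card ≤ Fintype.card B := Finset.card_le_univ _
  obtain ⟨m, hm⟩ : ∃ m, (T b₀).card = m + 1 := ⟨(T b₀).card - 1, by omega⟩
  obtain ⟨n, hn⟩ : ∃ n, Fintype.card B = n + 1 := ⟨Fintype.card B - 1, by omega⟩
  have h7 : Fintype.card B ≤ (T b₀).card := by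
    rw [hm, hn] at hup
    rw [hn] at hcardS
    have h8 : n ≤ (S b₀).card := by simpa using hcardS
    have h9 : (m + 1) * (S b₀).card ≤ (n + 1) * m := by simpa using hup
    have h10 : (m + 1) * n ≤ (n + 1) * m := (Nat.mul_le_mul_left _ h8).trans h9
    rw [hm, hn]
    nlinarith
  have h8 : T b₀ = Finset.univ := (Finset.card_eq_iff_eq_univ _).1 (le_antisymm h6 h7)
  exact hTcomm b₀ hb₀ x (by rw [h8]; exact Finset.mem_univ _) y (by rw [h8]; exact Finset.mem_univ _)

end GPerm
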