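import Pool.Agent.H1.GP.SL2

/-!
# Permutable subgroups of order two
-/

open Subgroup Pointwise

namespace GPerm

section crit

variable {G : Type*} [Group G]

/-- `A` and `B` permute: `A B = B A`. -/
def Permutes (A B : Subgroup G) : Prop := (A : Set G) * (B : Set G) = (B : Set G) * (A : Set G)

/-- The conjugate `B ^ x = x⁻¹ B x`. -/
def conjBy (B : Subgroup G) (x : G) : Subgroup G := B.map (MulAut.conj x⁻¹).toMonoidHom

/-- `A` is `G`-permutable: each subgroup `B` has a conjugate which permutes with `A`. -/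
def IsGPermutable (A : Subgroup G) : Prop := ∀ B : Subgroup G, ∃ x : G, Permutes A (conjBy B x)

lemma permutes_of_normalize (A B : Subgroup G) (h : ∀ a ∈ A, ∀ b ∈ B, a * b * a⁻¹ ∈ B) :
    Permutes A B := by
  apply Set.Subset.antisymm
  · rintro _ ⟨a, ha, b, hb, rfl⟩
    exact ⟨a * b * a⁻¹, h a ha b hb, a, ha, by group⟩
  · rintro _ ⟨b, hb, a, ha, rfl⟩
    have := h a⁻¹ (A.inv_mem ha) b hb
    exact ⟨a, ha, a⁻¹ * b * a⁻¹⁻¹, this, by group⟩

lemma mem_conjBy (B : Subgroup G) (x y : G) : y ∈ conjBy B x ↔ x * y * x⁻¹ ∈ B := by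
  constructor
  · rintro ⟨b, hb, rfl⟩
    have : x * ((MulAut.conj x⁻¹).toMonoidHom b) * x⁻¹ = b := by
      change x * (x⁻¹ * b * x⁻¹⁻¹) * x⁻¹ = b
      group
    rw [this]; exact hb
  · intro h
    refine ⟨_, h, ?_⟩
    change x⁻¹ * (x * y * x⁻¹) * x⁻¹⁻¹ = y
    group

lemma mem_zpowers_inv (t : G) (ht : t * t = 1) (a : G) (ha : a ∈ zpowers t) : a = 1 ∨ a = t := by
  obtain ⟨k, rfl⟩ := mem_zpowers_iff.1 ha
  have h2 : t ^ (2 : ℤ) = 1 := by rw [zpow_ofNat, pow_two, ht]
  rcases Int.even_or_odd' k with ⟨m, rfl | rfl⟩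
  · left; rw [zpow_mul, h2, one_zpow]
  · right; rw [zpow_add, zpow_mul, h2, one_zpow, one_mul, zpow_one]

theorem crit [Finite G] (t : G) (ht : t * t = 1)
    (h1 : ∀ s : G, s * s = 1 → s ≠ 1 → ∃ g, g * t * g⁻¹ = s)
    (h2 : ∀ B : Subgroup G, Odd (Nat.card B) →
      ∃ s : G, s * s = 1 ∧ s ≠ 1 ∧ ∀ b ∈ B, s * b * s⁻¹ ∈ B) :
    IsGPermutable (zpowers t) := by
  intro B
  by_cases hB : Odd (Nat.card B)
  · obtain ⟨s, hs, hs1, hsB⟩ := h2 B hB
    obtain ⟨g, hg⟩ := h1 s hs hs1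
    refine ⟨g, permutes_of_normalize _ _ fun a ha b hb => ?_⟩
    rcases mem_zpowers_inv t ht a ha with rfl | rfl
    · simpa using hb
    · rw [mem_conjBy] at hb ⊢
      have h3 := hsB _ hb
      rw [← hg] at h3
      convert h3 using 1
      group
  · have h3 : 2 ∣ Nat.card B := even_iff_two_dvd.1 (Nat.not_odd_iff_even.1 hB)
    obtain ⟨s, hs⟩ := exists_prime_orderOf_dvd_card' 2 h3
    have hs2 : s.1 * s.1 = 1 := by
      have := pow_orderOf_eq_one s
      rw [hs, pow_two] at this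
      exact congrArg Subtype.val this
    have hs1 : s.1 ≠ 1 := by
      intro h
      have : s = 1 := Subtype.ext h
      rw [this, orderOf_one] at hs
      omega
    obtain ⟨g, hg⟩ := h1 s.1 hs2 hs1
    have htB : t ∈ conjBy B g := by
      rw [mem_conjBy, hg]; exact s.2
    refine ⟨g, permutes_of_normalize _ _ fun a ha b hb => ?_⟩
    have ha' : a ∈ conjBy B g := by
      rcases mem_zpowers_inv t ht a ha with rfl | rfl
      · exact one_mem _
      · exact htB
    exact mul_mem (mul_mem ha' hb) (inv_mem ha')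

end crit

theorem main (F : Type*) [Field F] [Finite F] [CharP F 2] :
    ∃ A : Subgroup (SL2 F), Nat.card A = 2 ∧ A ≠ ⊤ ∧ IsGPermutable A := by
  obtain ⟨e1, e2, e3, e4⟩ := one_entries (F := F)
  have t1 : (tElt F).1 0 0 = 1 := rfl
  have t2 : (tElt F).1 0 1 = 1 := rfl
  have t3 : (tElt F).1 1 0 = 0 := rfl
  have t4 : (tElt F).1 1 1 = 1 := rfl
  have ht : tElt F * tElt F = 1 := by
    rw [ext_iff', e1, e2, e3, e4]
    simp only [mul_entries, t1, t2, t3, t4]
    refine ⟨by ring, ?_, by ring, by ring⟩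
    linear_combination (two_eq : (2 : F) = 0)
  have hne : tElt F ≠ 1 := by
    intro h
    rw [ext_iff', e2, t2] at h
    exact one_ne_zero h.2.1
  have hord : orderOf (tElt F) = 2 := orderOf_eq_prime (by rw [pow_two, ht]) hne
  refine ⟨zpowers (tElt F), by rw [Nat.card_zpowers, hord], ?_, ?_⟩
  · intro htop
    let r : SL2 F := ⟨!![1, 0; 1, 1], by rw [Matrix.det_fin_two_of]; ring⟩
    have hr : r ∈ zpowers (tElt F) := by rw [htop]; trivial
    have r3 : r.1 1 0 = 1 := rfl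
    rcases mem_zpowers_inv _ ht r hr with h | h
    · rw [ext_iff', e3, r3] at h
      exact one_ne_zero h.2.2.1
    · rw [ext_iff', t3, r3] at h
      exact one_ne_zero h.2.2.1
  · refine crit (tElt F) ht (fun s hs hs1 => involutions s hs hs1) ?_
    intro B hB
    by_cases htriv : ∀ b ∈ B, b = 1
    · refine ⟨tElt F, ht, hne, fun b hb => ?_⟩
      rw [htriv b hb]
      simp
    · push Not at htriv
      obtain ⟨b, hb, hb1⟩ := htriv
      have hsq : b * b ≠ 1 := by
        intro h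
        apply hb1
        have h1 : (⟨b, hb⟩ : B) ^ 2 = 1 := by
          rw [pow_two]; exact Subtype.ext h
        have h2 : orderOf (⟨b, hb⟩ : B) ∣ 2 := orderOf_dvd_of_pow_eq_one h1
        have h3 : orderOf (⟨b, hb⟩ : B) ∣ Nat.card B := orderOf_dvd_natCard _
        have h4 : Nat.Coprime 2 (Nat.card B) := (Nat.coprime_two_left).2 hB
        have h5 : orderOf (⟨b, hb⟩ : B) ∣ 1 := by
          rw [← h4.gcd_eq_one]
          exact Nat.dvd_gcd h2 h3
        exact congrArg Subtype.val (orderOf_eq_one_iff.1 (Nat.dvd_one.1 h5))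
      obtain ⟨w, hw, hw1, hwc⟩ := inverter b hsq
      refine ⟨w, hw, hw1, fun c hc => ?_⟩
      rw [hwc c (congrArg Subtype.val (odd_comm B hB ⟨b, hb⟩ ⟨c, hc⟩))]
      exact B.inv_mem hc

end GPerm
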