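import Pool.Agent.H1.GP.Count

/-!
# `SL(2, F)` in characteristic two
-/

open Matrix

namespace GPerm

variable {F : Type*} [Field F]

local instance : Fact (0 < 2) := ⟨two_pos⟩

/-- The group `SL(2, F)`. -/
abbrev SL2 (F : Type*) [Field F] := SpecialLinearGroup (Fin 2) F

lemma det_eq (x : SL2 F) : x.1 0 0 * x.1 1 1 - x.1 0 1 * x.1 1 0 = 1 := by
  have := x.2
  rwa [det_fin_two] at this

lemma mul_entries (x y : SL2 F) (i j : Fin 2) :
    (x * y).1 i j = x.1 i 0 * y.1 0 j + x.1 i 1 * y.1 1 j := by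
  change (x.1 * y.1) i j = _
  rw [Matrix.mul_apply, Fin.sum_univ_two]

lemma ext_iff' (x y : SL2 F) : x = y ↔ x.1 0 0 = y.1 0 0 ∧ x.1 0 1 = y.1 0 1 ∧
    x.1 1 0 = y.1 1 0 ∧ x.1 1 1 = y.1 1 1 := by
  constructor
  · rintro rfl; exact ⟨rfl, rfl, rfl, rfl⟩
  · rintro ⟨h1, h2, h3, h4⟩
    apply Subtype.ext
    ext i j
    fin_cases i <;> fin_cases j <;> assumption

lemma one_entries : (1 : SL2 F).1 0 0 = 1 ∧ (1 : SL2 F).1 0 1 = 0 ∧ (1 : SL2 F).1 1 0 = 0 ∧
    (1 : SL2 F).1 1 1 = 1 := by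
  refine ⟨?_, ?_, ?_, ?_⟩ <;> simp

lemma comm_iff (x y : SL2 F) : x * y = y * x ↔
    (x.1 0 1 * y.1 1 0 = y.1 0 1 * x.1 1 0 ∧
      (x.1 0 0 - x.1 1 1) * y.1 0 1 = x.1 0 1 * (y.1 0 0 - y.1 1 1) ∧
      (x.1 0 0 - x.1 1 1) * y.1 1 0 = x.1 1 0 * (y.1 0 0 - y.1 1 1)) := by
  rw [ext_iff']
  simp only [mul_entries]
  constructor
  · rintro ⟨h1, h2, h3, h4⟩
    refine ⟨?_, ?_, ?_⟩
    · linear_combination h1
    · linear_combination h2
    · linear_combination -h3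
  · rintro ⟨h1, h2, h3⟩
    refine ⟨?_, ?_, ?_, ?_⟩
    · linear_combination h1
    · linear_combination h2
    · linear_combination -h3
    · linear_combination -h1

variable [CharP F 2]

lemma two_eq : (2 : F) = 0 := CharTwo.two_eq_zero

lemma sub_eq (a b : F) : a - b = a + b := by
  linear_combination (-b) * (two_eq : (2 : F) = 0)

/-- A scalar matrix of determinant one is trivial in characteristic two. -/
lemma nonscalar (x : SL2 F) (hx : x ≠ 1) :
    x.1 0 1 ≠ 0 ∨ x.1 1 0 ≠ 0 ∨ x.1 0 0 - x.1 1 1 ≠ 0 := by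
  by_contra hcon
  push Not at hcon
  obtain ⟨h1, h2, h3⟩ := hcon
  apply hx
  have hd := det_eq x
  rw [h1, zero_mul, sub_zero] at hd
  have h4 : x.1 0 0 = x.1 1 1 := sub_eq_zero.1 h3
  have h5 : (x.1 1 1 - 1) ^ 2 = 0 := by
    rw [h4] at hd
    linear_combination hd + (1 - x.1 1 1) * (two_eq : (2 : F) = 0)
  have h6 : x.1 1 1 = 1 := by
    have := pow_eq_zero_iff (two_ne_zero) |>.1 h5
    exact sub_eq_zero.1 this
  rw [ext_iff']
  obtain ⟨e1, e2, e3, e4⟩ := one_entries (F := F)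
  rw [e1, e2, e3, e4]
  exact ⟨h4.trans h6, h1, h2, h6⟩

/-- Commuting is transitive on nontrivial elements. -/
lemma comm_trans (x y z : SL2 F) (hx : x ≠ 1) (hxy : x * y = y * x) (hxz : x * z = z * x) :
    y * z = z * y := by
  rw [comm_iff] at hxy hxz ⊢
  obtain ⟨a1, a2, a3⟩ := hxy
  obtain ⟨b1, b2, b3⟩ := hxz
  rcases nonscalar x hx with h | h | h
  · refine ⟨?_, ?_, ?_⟩ <;> apply mul_left_cancel₀ h
    · linear_combination y.1 0 1 * b1 - z.1 0 1 * a1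
    · linear_combination z.1 0 1 * (-a2) + y.1 0 1 * b2
    · have e1 : x.1 0 1 * (y.1 0 0 - y.1 1 1) = (x.1 0 0 - x.1 1 1) * y.1 0 1 := a2.symm
      have e2 : x.1 0 1 * (z.1 0 0 - z.1 1 1) = (x.1 0 0 - x.1 1 1) * z.1 0 1 := b2.symm
      have e3 : x.1 0 1 * ((x.1 0 0 - x.1 1 1) * (y.1 0 1 * z.1 1 0 - z.1 0 1 * y.1 1 0)) = 0 := by
        linear_combination (x.1 0 0 - x.1 1 1) * y.1 0 1 * b1 - (x.1 0 0 - x.1 1 1) * z.1 0 1 * a1
      have e4 : (x.1 0 0 - x.1 1 1) * (y.1 0 1 * z.1 1 0 - z.1 0 1 * y.1 1 0) = 0 :=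
        (mul_eq_zero.1 e3).resolve_left h
      linear_combination z.1 1 0 * e1 - y.1 1 0 * e2 + e4
  · refine ⟨?_, ?_, ?_⟩ <;> apply mul_left_cancel₀ h
    · linear_combination (-z.1 1 0) * a1 + y.1 1 0 * b1
    · have e1 : x.1 1 0 * (y.1 0 0 - y.1 1 1) = (x.1 0 0 - x.1 1 1) * y.1 1 0 := a3.symm
      have e2 : x.1 1 0 * (z.1 0 0 - z.1 1 1) = (x.1 0 0 - x.1 1 1) * z.1 1 0 := b3.symm
      have e3 : x.1 1 0 * ((x.1 0 0 - x.1 1 1) * (y.1 1 0 * z.1 0 1 - z.1 1 0 * y.1 0 1)) = 0 := by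
        linear_combination (x.1 0 0 - x.1 1 1) * z.1 1 0 * a1 - (x.1 0 0 - x.1 1 1) * y.1 1 0 * b1
      have e4 : (x.1 0 0 - x.1 1 1) * (y.1 1 0 * z.1 0 1 - z.1 1 0 * y.1 0 1) = 0 :=
        (mul_eq_zero.1 e3).resolve_left h
      linear_combination z.1 0 1 * e1 - y.1 0 1 * e2 + e4
    · linear_combination z.1 1 0 * (-a3) + y.1 1 0 * b3
  · refine ⟨?_, ?_, ?_⟩ <;> apply mul_left_cancel₀ h
    · linear_combination z.1 1 0 * a2 + (y.1 0 0 - y.1 1 1) * b1 - z.1 0 1 * a3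
    · linear_combination (y.1 0 0 - y.1 1 1) * b2 - (z.1 0 0 - z.1 1 1) * a2
    · linear_combination (y.1 0 0 - y.1 1 1) * b3 - (z.1 0 0 - z.1 1 1) * a3

/-- If `b ^ 2 ≠ 1` then the trace of `b` is not zero. -/
lemma trace_ne (b : SL2 F) (hb : b * b ≠ 1) : b.1 0 0 + b.1 1 1 ≠ 0 := by
  intro h
  apply hb
  have hd := det_eq b
  rw [ext_iff']
  obtain ⟨e1, e2, e3, e4⟩ := one_entries (F := F)
  rw [e1, e2, e3, e4]
  simp only [mul_entries]
  refine ⟨?_, ?_, ?_, ?_⟩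
  · linear_combination b.1 0 0 * h - hd - (two_eq : (2 : F) = 0)
  · linear_combination b.1 0 1 * h
  · linear_combination b.1 1 0 * h
  · linear_combination b.1 1 1 * h - hd - (two_eq : (2 : F) = 0)

lemma inv_entries (b : SL2 F) : b⁻¹.1 0 0 = b.1 1 1 ∧ b⁻¹.1 0 1 = b.1 0 1 ∧
    b⁻¹.1 1 0 = b.1 1 0 ∧ b⁻¹.1 1 1 = b.1 0 0 := by
  have h : b⁻¹.1 = !![b.1 1 1, -b.1 0 1; -b.1 1 0, b.1 0 0] :=
    (Matrix.SpecialLinearGroup.coe_inv b).trans (adjugate_fin_two b.1)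
  rw [h]
  refine ⟨rfl, ?_, ?_, rfl⟩
  · change -b.1 0 1 = b.1 0 1
    linear_combination (-b.1 0 1) * (two_eq : (2 : F) = 0)
  · change -b.1 1 0 = b.1 1 0
    linear_combination (-b.1 1 0) * (two_eq : (2 : F) = 0)

/-- A conjugate of `b` (with `b ^ 2 ≠ 1`) which commutes with `b` is `b` or `b⁻¹`. -/
lemma conj_comm (b c : SL2 F) (hb : b * b ≠ 1) (htr : c.1 0 0 + c.1 1 1 = b.1 0 0 + b.1 1 1)
    (hc : b * c = c * b) : c = b ∨ c = b⁻¹ := by
  have ht := trace_ne b hb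
  rw [comm_iff] at hc
  obtain ⟨-, a2, a3⟩ := hc
  rw [sub_eq, sub_eq, htr] at a2 a3
  have h1 : c.1 0 1 = b.1 0 1 := by
    apply mul_left_cancel₀ ht
    rw [a2, mul_comm]
  have h2 : c.1 1 0 = b.1 1 0 := by
    apply mul_left_cancel₀ ht
    rw [a3, mul_comm]
  have hd := det_eq b
  have hd' := det_eq c
  rw [h1, h2] at hd'
  have h3 : (c.1 0 0 - b.1 0 0) * (c.1 0 0 - b.1 1 1) = 0 := by
    linear_combination c.1 0 0 * htr - hd' + hd
  rcases mul_eq_zero.1 h3 with h4 | h4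
  · left
    have h5 : c.1 0 0 = b.1 0 0 := sub_eq_zero.1 h4
    rw [ext_iff']
    refine ⟨h5, h1, h2, ?_⟩
    linear_combination htr - h5
  · right
    have h5 : c.1 0 0 = b.1 1 1 := sub_eq_zero.1 h4
    obtain ⟨i1, i2, i3, i4⟩ := inv_entries b
    rw [ext_iff', i1, i2, i3, i4]
    refine ⟨h5, h1, h2, ?_⟩
    linear_combination htr - h5

lemma trace_conj (g b : SL2 F) :
    (g * b * g⁻¹).1 0 0 + (g * b * g⁻¹).1 1 1 = b.1 0 0 + b.1 1 1 := by
  have h : (g * b * g⁻¹).1.trace = b.1.trace := by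
    change (g.1 * b.1 * g⁻¹.1).trace = b.1.trace
    rw [Matrix.trace_mul_comm, ← Matrix.mul_assoc]
    have : g⁻¹.1 * g.1 = 1 := by
      change (g⁻¹ * g).1 = 1
      rw [inv_mul_cancel]; rfl
    rw [this, Matrix.one_mul]
  rwa [trace_fin_two, trace_fin_two] at h

/-- Subgroups of odd order are commutative. -/
theorem odd_comm [Finite F] (B : Subgroup (SL2 F)) (hB : Odd (Nat.card B)) (x y : B) :
    x * y = y * x := by
  have hsq : ∀ b : B, b ≠ 1 → b.1 * b.1 ≠ 1 := by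
    intro b hb h
    apply hb
    have h1 : b ^ 2 = 1 := by
      rw [pow_two]; exact Subtype.ext h
    have h2 : orderOf b ∣ 2 := orderOf_dvd_of_pow_eq_one h1
    have h3 : orderOf b ∣ Nat.card B := orderOf_dvd_natCard b
    have h4 : Nat.Coprime 2 (Nat.card B) := (Nat.coprime_two_left).2 hB
    have h5 : orderOf b ∣ 1 := by
      rw [← h4.gcd_eq_one]
      exact Nat.dvd_gcd h2 h3
    exact orderOf_eq_one_iff.1 (Nat.dvd_one.1 h5)
  refine comm_of_odd hB ?_ ?_ x y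
  · intro x y z hx hxy hxz
    apply Subtype.ext
    exact comm_trans x.1 y.1 z.1 (fun h => hx (Subtype.ext h)) (congrArg Subtype.val hxy)
      (congrArg Subtype.val hxz)
  · intro g b hb hgb
    have h1 : b.1 * (g.1 * b.1 * g.1⁻¹) = (g.1 * b.1 * g.1⁻¹) * b.1 :=
      (congrArg Subtype.val hgb).symm
    apply Subtype.ext
    change g.1 * b.1 = b.1 * g.1
    rcases conj_comm b.1 _ (hsq b hb) (trace_conj g.1 b.1) h1 with h2 | h2
    · rwa [mul_inv_eq_iff_eq_mul] at h2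
    · -- `g` inverts `b`, so `g ^ 2` commutes with `b`, hence `g` does
      have h3 : g.1 * b.1⁻¹ * g.1⁻¹ = b.1 := by
        have := congrArg (fun z => z⁻¹) h2
        simpa [mul_assoc] using this
      have h4 : Commute (g.1 ^ 2) b.1 := by
        change g.1 ^ 2 * b.1 = b.1 * g.1 ^ 2
        calc g.1 ^ 2 * b.1 = g.1 * (g.1 * b.1 * g.1⁻¹) * g.1 := by rw [pow_two]; group
          _ = (g.1 * b.1⁻¹ * g.1⁻¹) * g.1 ^ 2 := by rw [h2, pow_two]; group
          _ = b.1 * g.1 ^ 2 := by rw [h3]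
      obtain ⟨k, hk⟩ := hB
      have h5 : g.1 ^ (2 * k + 1) = 1 := by
        have : g ^ (2 * k + 1) = 1 := by rw [← hk]; exact pow_card_eq_one'
        exact congrArg Subtype.val this
      have h6 : g.1 = ((g.1 ^ 2) ^ k)⁻¹ := by
        rw [← pow_mul, eq_inv_iff_mul_eq_one, ← pow_succ']
        exact h5
      have h7 : Commute g.1 b.1 := by
        rw [h6]
        exact (h4.pow_left k).inv_left
      exact h7

/-- Each element `b` with `b ^ 2 ≠ 1` is inverted by an involution, which then inverts all elements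
commuting with `b`. -/
theorem inverter (b : SL2 F) (hb : b * b ≠ 1) :
    ∃ w : SL2 F, w * w = 1 ∧ w ≠ 1 ∧ ∀ c : SL2 F, b * c = c * b → w * c * w⁻¹ = c⁻¹ := by
  have ht := trace_ne b hb
  set τ := b.1 0 0 + b.1 1 1 with hτ
  -- the entries of the involution
  obtain ⟨p, q, r, hdet, hne, hlin⟩ : ∃ p q r : F, p * p - q * r = 1 ∧ (q ≠ 0 ∨ r ≠ 0) ∧
      p * τ + q * b.1 1 0 + r * b.1 0 1 = 0 := by
    by_cases h1 : b.1 1 0 = 0
    · by_cases h2 : b.1 0 1 = 0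
      · refine ⟨0, 1, 1, ?_, Or.inl one_ne_zero, ?_⟩
        · linear_combination (-1 : F) * (two_eq : (2 : F) = 0)
        · rw [h1, h2]; ring
      · refine ⟨1, 0, τ / b.1 0 1, by ring, Or.inr (div_ne_zero ht h2), ?_⟩
        rw [div_mul_cancel₀ _ h2]
        linear_combination τ * (two_eq : (2 : F) = 0)
    · refine ⟨1, τ / b.1 1 0, 0, by ring, Or.inl (div_ne_zero ht h1), ?_⟩
      rw [div_mul_cancel₀ _ h1]
      linear_combination τ * (two_eq : (2 : F) = 0)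
  let w : SL2 F := ⟨!![p, q; r, p], by rw [det_fin_two_of]; exact hdet⟩
  have w1 : w.1 0 0 = p := rfl
  have w2 : w.1 0 1 = q := rfl
  have w3 : w.1 1 0 = r := rfl
  have w4 : w.1 1 1 = p := rfl
  obtain ⟨e1, e2, e3, e4⟩ := one_entries (F := F)
  refine ⟨w, ?_, ?_, ?_⟩
  · rw [ext_iff', e1, e2, e3, e4]
    simp only [mul_entries, w1, w2, w3, w4]
    refine ⟨?_, ?_, ?_, ?_⟩
    · linear_combination hdet + q * r * (two_eq : (2 : F) = 0)
    · linear_combination p * q * (two_eq : (2 : F) = 0)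
    · linear_combination p * r * (two_eq : (2 : F) = 0)
    · linear_combination hdet + q * r * (two_eq : (2 : F) = 0)
  · intro h
    rw [ext_iff', e1, e2, e3, e4, w1, w2, w3, w4] at h
    rcases hne with h1 | h1
    · exact h1 h.2.1
    · exact h1 h.2.2.1
  · intro c hc
    rw [mul_inv_eq_iff_eq_mul]
    obtain ⟨i1, i2, i3, i4⟩ := inv_entries c
    rw [comm_iff] at hc
    obtain ⟨a1, a2, a3⟩ := hc
    rw [sub_eq, sub_eq] at a2 a3
    -- the linear condition for `c`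
    have hl : p * (c.1 0 0 + c.1 1 1) + q * c.1 1 0 + r * c.1 0 1 = 0 := by
      apply (mul_eq_zero.1 (?_ : τ * (p * (c.1 0 0 + c.1 1 1) + q * c.1 1 0 + r * c.1 0 1) = 0)).resolve_left ht
      linear_combination (c.1 0 0 + c.1 1 1) * hlin + q * a3 + r * a2
    rw [ext_iff']
    simp only [mul_entries, w1, w2, w3, w4, i1, i2, i3, i4]
    refine ⟨?_, ?_, ?_, ?_⟩
    · linear_combination hl - (c.1 1 1 * p + c.1 0 1 * r) * (two_eq : (2 : F) = 0)
    · ring
    · ring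
    · linear_combination hl - (c.1 0 0 * p + c.1 1 0 * q) * (two_eq : (2 : F) = 0)

/-- The involution with entries `1, 1, 0, 1`. -/
def tElt (F : Type*) [Field F] : SL2 F := ⟨!![1, 1; 0, 1], by rw [det_fin_two_of]; ring⟩

/-- All involutions are conjugate. -/
theorem involutions [Finite F] (s : SL2 F) (hs : s * s = 1) (hs1 : s ≠ 1) :
    ∃ g : SL2 F, g * tElt F * g⁻¹ = s := by
  obtain ⟨e1, e2, e3, e4⟩ := one_entries (F := F)
  have hd := det_eq s
  have hs' := (ext_iff' _ _).1 hs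
  simp only [mul_entries, e1, e2, e3, e4] at hs'
  obtain ⟨s1, s2, s3, s4⟩ := hs'
  have htr : s.1 0 0 + s.1 1 1 = 0 := by
    by_contra h
    have h1 : s.1 0 1 = 0 := by
      apply (mul_eq_zero.1 (?_ : (s.1 0 0 + s.1 1 1) * s.1 0 1 = 0)).resolve_left h
      linear_combination s2
    have h2 : s.1 1 0 = 0 := by
      apply (mul_eq_zero.1 (?_ : (s.1 0 0 + s.1 1 1) * s.1 1 0 = 0)).resolve_left h
      linear_combination s3
    rw [h1, h2] at s1 s4
    have h3 : (s.1 0 0 - 1) ^ 2 = 0 := by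
      linear_combination s1 + (1 - s.1 0 0) * (two_eq : (2 : F) = 0)
    have h4 : (s.1 1 1 - 1) ^ 2 = 0 := by
      linear_combination s4 + (1 - s.1 1 1) * (two_eq : (2 : F) = 0)
    have h5 : s.1 0 0 = 1 := sub_eq_zero.1 ((pow_eq_zero_iff two_ne_zero).1 h3)
    have h6 : s.1 1 1 = 1 := sub_eq_zero.1 ((pow_eq_zero_iff two_ne_zero).1 h4)
    apply h
    rw [h5, h6]
    linear_combination (two_eq : (2 : F) = 0)
  have hchar : ringChar F = 2 := ringChar.eq F 2 ▸ rfl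
  -- choose the second column `(q, u)` of `g`
  obtain ⟨q, u, hqu⟩ : ∃ q u : F, s.1 0 1 * (u * u) + s.1 1 0 * (q * q) = 1 := by
    by_cases h1 : s.1 0 1 = 0
    · have h2 : s.1 1 0 ≠ 0 := by
        intro h2
        rcases nonscalar s hs1 with h | h | h
        · exact h h1
        · exact h h2
        · apply h
          rw [sub_eq]; exact htr
      obtain ⟨z, hz⟩ := FiniteField.isSquare_of_char_two hchar (s.1 1 0)⁻¹
      refine ⟨z, 0, ?_⟩
      rw [← hz, mul_inv_cancel₀ h2]; ring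
    · obtain ⟨z, hz⟩ := FiniteField.isSquare_of_char_two hchar (s.1 0 1)⁻¹
      refine ⟨0, z, ?_⟩
      rw [← hz, mul_inv_cancel₀ h1]; ring
  let g : SL2 F := ⟨!![(s.1 0 0 + 1) * q + s.1 0 1 * u, q; s.1 1 0 * q + (s.1 0 0 + 1) * u, u], by
    rw [det_fin_two_of]
    linear_combination hqu - s.1 1 0 * (q * q) * (two_eq : (2 : F) = 0)⟩
  refine ⟨g, ?_⟩
  rw [mul_inv_eq_iff_eq_mul, ext_iff']
  have g1 : g.1 0 0 = (s.1 0 0 + 1) * q + s.1 0 1 * u := rfl
  have g2 : g.1 0 1 = q := rfl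
  have g3 : g.1 1 0 = s.1 1 0 * q + (s.1 0 0 + 1) * u := rfl
  have g4 : g.1 1 1 = u := rfl
  have hs11 : s.1 1 1 = s.1 0 0 := by
    linear_combination htr - s.1 0 0 * (two_eq : (2 : F) = 0)
  simp only [mul_entries, g1, g2, g3, g4, hs11]
  refine ⟨?_, ?_, ?_, ?_⟩
  · change _ * (1 : F) + _ * (0 : F) = _
    linear_combination (-q) * s1 - (s.1 0 0 * s.1 0 1 * u) * (two_eq : (2 : F) = 0)
  · change _ * (1 : F) + _ * (1 : F) = _
    linear_combination q * (two_eq : (2 : F) = 0)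
  · change _ * (1 : F) + _ * (0 : F) = _
    linear_combination (-u) * s1 - (s.1 0 0 * s.1 1 0 * q) * (two_eq : (2 : F) = 0)
  · change _ * (1 : F) + _ * (1 : F) = _
    linear_combination u * (two_eq : (2 : F) = 0)

end GPerm
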