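import Pool.Agent.H1.GP.Main

/-!
# Simplicity of `SL(2, F)` in characteristic two
-/

open Subgroup

namespace GPerm

theorem simple (F : Type*) [Field F] [CharP F 2] (hF : 4 ≤ Nat.card F) :
    IsSimpleGroup (SL2 F) := by
  have hc : Subgroup.center (SL2 F) = ⊥ := by
    rw [eq_bot_iff]
    intro z hz
    by_contra hz1
    have hz1' : z ≠ 1 := fun h => hz1 (by rw [h]; exact one_mem _)
    let r : SL2 F := ⟨!![1, 0; 1, 1], by rw [Matrix.det_fin_two_of]; ring⟩
    have h := comm_trans z (tElt F) r hz1' (mem_center_iff.1 hz _).symm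
      (mem_center_iff.1 hz _).symm
    rw [comm_iff] at h
    have h1 : (1 : F) * 1 = 0 * 0 := h.1
    simp at h1
  have hs : IsSimpleGroup (Matrix.ProjectiveSpecialLinearGroup (Fin 2) F) :=
    Matrix.ProjectiveSpecialLinearGroup.rank_two_simple hF
  let e : Matrix.ProjectiveSpecialLinearGroup (Fin 2) F ≃* SL2 F :=
    (QuotientGroup.quotientMulEquivOfEq hc).trans QuotientGroup.quotientBot
  have : Nontrivial (SL2 F) := e.symm.toEquiv.nontrivial
  exact IsSimpleGroup.isSimpleGroup_of_surjective e.toMonoidHom e.surjective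

end GPerm
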